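import Mathlib

set_option autoImplicit false

namespace Pool.Agent.H.MP_4abaeb_an

open MvPolynomial Filter Topology Set
open scoped InnerProductSpace

abbrev R := MvPolynomial (Fin 2) ℂ

abbrev D := R →ₗ[ℂ] ℂ

noncomputable def ev (z : ℂ) : R →ₐ[ℂ] ℂ := aeval ![z, Complex.exp z]

@[simp] lemma ev0 (z : ℂ) : ev z (X 0) = z := by simp [ev]

@[simp] lemma ev1 (z : ℂ) : ev z (X 1) = Complex.exp z := by simp [ev]

noncomputable def leval (z : ℂ) : D := (ev z).toLinearMap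

@[simp] lemma leval_apply (z : ℂ) (q : R) : leval z q = ev z q := rfl

noncomputable def act (p : R) : D →ₗ[ℂ] D := (LinearMap.mulLeft ℂ p).dualMap

@[simp] lemma act_apply (p q : R) (u : D) : act p u q = u (p * q) := rfl

def Bd (m : ℕ) (u : D) (C : ℝ) : Prop :=
  ∀ n t : ℕ, (m : ℝ) ^ n * ‖u (X 0 ^ n * X 1 ^ t)‖ ≤ C

def G (m : ℕ) : Set ℂ := {z | m * ‖z‖ < 1 ∧ ‖Complex.exp z‖ < 1}

noncomputable def Sp (U : Set ℂ) : Submodule ℂ D := Submodule.span ℂ (leval '' U)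

variable {m : ℕ} {u v : D} {C C' : ℝ} {U : Set ℂ}

lemma Bd.add (h : Bd m u C) (h' : Bd m v C') : Bd m (u + v) (C + C') := fun n t =>
  (mul_le_mul_of_nonneg_left (norm_add_le _ _) (by positivity)).trans
    (by rw [mul_add]; exact add_le_add (h n t) (h' n t))

lemma Bd.smul (h : Bd m u C) (c : ℂ) : Bd m (c • u) (‖c‖ * C) := fun n t => by
  rw [LinearMap.smul_apply, norm_smul, mul_left_comm]
  exact mul_le_mul_of_nonneg_left (h n t) (norm_nonneg c)

lemma Bd.mono (h : Bd m u C) {k : ℕ} (hk : k ≤ m) (hC : C ≤ C') : Bd k u C' := fun n t =>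
  le_trans (by gcongr) ((h n t).trans hC)

lemma Bd.nonneg (h : Bd m u C) : 0 ≤ C := le_trans (by positivity) (h 0 0)

lemma act_bd (p : R) : ∃ K, 0 < K ∧ ∀ m u C, Bd (m + 1) u C → Bd (m + 1) (act p u) (K * C) := by
  induction p using MvPolynomial.induction_on with
  | C a =>
    refine ⟨‖a‖ + 1, by positivity, fun m u C h => ?_⟩
    have : act (MvPolynomial.C a) u = a • u := LinearMap.ext fun r => by simp [C_mul']
    rw [this]
    exact (h.smul a).mono le_rfl (by nlinarith [h.nonneg])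
  | add p q hp hq =>
    obtain ⟨K, h1, h2⟩ := hp
    obtain ⟨L, h3, h4⟩ := hq
    refine ⟨K + L, by positivity, fun m u C h => ?_⟩
    have : act (p + q) u = act p u + act q u := LinearMap.ext fun r => by simp [add_mul]
    rw [this, add_mul]
    exact (h2 m u C h).add (h4 m u C h)
  | mul_X p i hp =>
    obtain ⟨K, h1, h2⟩ := hp
    refine ⟨K, h1, fun m u C h n t => ?_⟩
    fin_cases i
    · refine le_trans ?_ (h2 m u C h (n + 1) t)
      rw [act_apply, act_apply, mul_assoc p, ← mul_assoc (X _), pow_succ' (X 0)]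
      gcongr
      · simp
      · omega
      · rfl
    · convert h2 m u C h n (t + 1) using 3
      rw [act_apply, act_apply, mul_assoc p, mul_left_comm (X _), pow_succ']
      rfl

lemma ev_bd {z : ℂ} (hz : z ∈ G m) : Bd m (leval z) 1 := fun n t => by
  simp only [leval_apply, map_mul, map_pow, ev0, ev1, norm_mul,
    norm_pow, ← mul_assoc, ← mul_pow]
  exact mul_le_one₀ (pow_le_one₀ (by positivity) hz.1.le) (by positivity)
    (pow_le_one₀ (by positivity) hz.2.le)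

lemma act_ev (p : R) (z : ℂ) : act p (leval z) = ev z p • leval z :=
  LinearMap.ext fun q => by simp

lemma act_mem (p : R) (h : u ∈ Sp U) : act p u ∈ Sp U := by
  refine (Submodule.map_le_iff_le_comap.1 ?_ : Sp U ≤ (Sp U).comap (act p)) h
  rw [Sp, Submodule.map_span_le]
  rintro _ ⟨z, hz, rfl⟩
  rw [act_ev]
  exact Submodule.smul_mem _ _ (Submodule.subset_span ⟨z, hz, rfl⟩)

lemma small (hU : U ⊆ G m) {a b : ℕ → R} (h : ∀ z ∈ U, (∀ j, ev z (a j) ≠ 0) ∧
    Tendsto (fun j => ev z (b j) / ev z (a j)) atTop (𝓝 0)) (hu : u ∈ Sp U) :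
    ∃ (w : ℕ → D) (e : ℕ → ℝ), Tendsto e atTop (𝓝 0) ∧
      ∀ j, w j ∈ Sp U ∧ act (a j) (w j) = act (b j) u ∧ Bd m (w j) (e j) := by
  induction hu using Submodule.span_induction with
  | mem x hx =>
    obtain ⟨z, hz, rfl⟩ := hx
    refine ⟨fun j => (ev z (b j) / ev z (a j)) • leval z, _,
      by simpa using (h z hz).2.norm.mul_const 1, fun j =>
      ⟨Submodule.smul_mem _ _ (Submodule.subset_span ⟨z, hz, rfl⟩), ?_, (ev_bd (hU hz)).smul _⟩⟩
    rw [map_smul, act_ev, act_ev, smul_smul, div_mul_cancel₀ _ ((h z hz).1 j)]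
  | zero => exact ⟨0, 0, tendsto_const_nhds, fun j => ⟨zero_mem _, by simp, fun n t => by simp⟩⟩
  | add x y _ _ hx hy =>
    obtain ⟨w, e, h1, h2⟩ := hx
    obtain ⟨w', e', h3, h4⟩ := hy
    exact ⟨w + w', fun j => e j + e' j, by simpa using h1.add h3, fun j => ⟨add_mem (h2 j).1 (h4 j).1,
      by simp [(h2 j).2.1, (h4 j).2.1], (h2 j).2.2.add (h4 j).2.2⟩⟩
  | smul c x _ hx =>
    obtain ⟨w, e, h1, h2⟩ := hx
    exact ⟨c • w, fun j => ‖c‖ * e j, by simpa using h1.const_mul ‖c‖, fun j =>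
      ⟨Submodule.smul_mem _ _ (h2 j).1, by simp [(h2 j).2.1], (h2 j).2.2.smul c⟩⟩

lemma geo {ρ : ℝ} (h0 : 0 ≤ ρ) (h1 : ρ < 1) : Summable fun i : ℕ × ℕ => ρ ^ i.1 * ρ ^ i.2 :=
  (summable_geometric_of_lt_one h0 h1).mul_of_nonneg (summable_geometric_of_lt_one h0 h1)
    (fun _ => by positivity) fun _ => by positivity

lemma dens1 (hU : U ⊆ G (m + 1)) (ho : IsOpen U) (hn : U.Nonempty) {z : ℂ} (hz : z ∈ G (m + 1)) :
    ∃ (w : ℕ → D) (e : ℕ → ℝ), Tendsto e atTop (𝓝 0) ∧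
      ∀ j, w j ∈ Sp U ∧ Bd (m + 1) (w j - leval z) (e j) := by
  obtain ⟨φ, hφ⟩ : ∃ φ : ℕ × ℕ → ℂ → ℂ,
    φ = fun i z => (((m + 1 : ℕ) : ℂ) * z) ^ i.1 * Complex.exp z ^ i.2 := ⟨_, rfl⟩
  have b : ∀ ρ z, ((m + 1 : ℕ) : ℝ) * ‖z‖ < ρ ∧ ‖Complex.exp z‖ < ρ → ∀ i, ‖φ i z‖ ≤ ρ ^ i.1 * ρ ^ i.2 :=
    fun ρ z h i => by
      have := (norm_nonneg _).trans h.2.le
      simp only [hφ, norm_mul, norm_pow, Complex.norm_natCast]
      gcongr
      exacts [h.1.le, h.2.le]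
  have ex : ∀ z ∈ G (m + 1), ∀ z' ∈ G (m + 1), ∃ ρ, 0 ≤ ρ ∧ ρ < 1 ∧
      (((m + 1 : ℕ) : ℝ) * ‖z‖ < ρ ∧ ‖Complex.exp z‖ < ρ) ∧ ((m + 1 : ℕ) : ℝ) * ‖z'‖ < ρ ∧ ‖Complex.exp z'‖ < ρ :=
    fun z h z' h' => by
      obtain ⟨ρ, h1, h2⟩ := exists_between (max_lt (max_lt h.1 h.2) (max_lt h'.1 h'.2))
      simp only [max_lt_iff] at h1
      exact ⟨ρ, (norm_nonneg _).trans h1.1.2.le, h2, h1⟩
  have : ∀ z, ∃ E : lp (fun _ : ℕ × ℕ => ℂ) 2, z ∈ G (m + 1) → ∀ i, E i = φ i z := fun z => by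
    by_cases h : z ∈ G (m + 1)
    · obtain ⟨ρ, h0, h1, h2, -⟩ := ex z h z h
      refine ⟨⟨fun i => φ i z, memℓp_gen (.of_nonneg_of_le (fun _ => by positivity) (fun i => ?_)
        (geo h0 h1))⟩, fun _ _ => rfl⟩
      refine le_trans ?_ (b ρ z h2 i)
      rw [show (2 : ENNReal).toReal = (2 : ℕ) by simp, Real.rpow_natCast, sq]
      exact mul_le_of_le_one_left (norm_nonneg _) (by simpa using b 1 z h i)
    · exact ⟨0, fun h' => absurd h' h⟩
  choose E hE using this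
  have h1 : E z ∈ (Submodule.span ℂ (E '' U)).topologicalClosure := by
    rw [← Submodule.orthogonal_orthogonal_eq_closure, Submodule.mem_orthogonal]
    intro g hg
    obtain ⟨z0, h0⟩ := hn
    obtain ⟨ρ, r0, r1, r2, r3⟩ := ex z hz z0 (hU h0)
    have e : ∀ w ∈ G (m + 1), ⟪g, E w⟫_ℂ = ∑' i, starRingEnd ℂ (g i) * φ i w := fun w hw => by
      rw [lp.inner_eq_tsum]; simp [hE w hw, mul_comm]
    have o : IsOpen {w : ℂ | ((m + 1 : ℕ) : ℝ) * ‖w‖ < ρ ∧ ‖Complex.exp w‖ < ρ} :=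
      IsOpen.and (isOpen_lt (by fun_prop) continuous_const)
        (isOpen_lt (by fun_prop) continuous_const)
    have d := Complex.differentiableOn_tsum_of_summable_norm ((geo r0 r1).mul_left ‖g‖)
      (F := fun i w => starRingEnd ℂ (g i) * φ i w) (fun i => by rw [hφ]; fun_prop) o
      fun i w hw => by
        rw [norm_mul, Complex.norm_conj]
        exact mul_le_mul (lp.norm_apply_le_norm two_ne_zero g i) (b ρ w hw i) (norm_nonneg _)
          (norm_nonneg _)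
    rw [e z hz]
    refine (d.analyticOnNhd o).eqOn_zero_of_preconnected_of_eventuallyEq_zero
      (Convex.isPreconnected ?_) r3 ?_ r2
    · convert (convex_ball (0 : ℂ) (ρ / (m + 1 : ℕ))).inter (convex_halfSpace_re_lt (Real.log ρ))
        using 1
      ext w
      simp only [mem_ofPred_eq, mem_inter_iff, mem_ball_iff_norm, sub_zero, Complex.norm_exp]
      rw [lt_div_iff₀' (by positivity), Real.lt_log_iff_exp_lt ((norm_nonneg _).trans_lt r2.2)]
    · filter_upwards [ho.mem_nhds h0] with w hw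
      rw [← e w (hU hw)]
      exact Submodule.inner_left_of_mem_orthogonal (Submodule.subset_span (mem_image_of_mem E hw)) hg
  have h2 : ∀ z ∈ G (m + 1), ∀ i, E z i = ((m + 1 : ℕ) : ℂ) ^ i.1 *
      leval z (X 0 ^ i.1 * X 1 ^ i.2 : R) := fun z hz i => by
    simp [hE z hz, hφ, mul_pow, mul_assoc]
  have h3 : ∀ k ∈ Submodule.span ℂ (E '' U), ∃ w ∈ Sp U, ∀ i, k i = ((m + 1 : ℕ) : ℂ) ^ i.1 *
      w (X 0 ^ i.1 * X 1 ^ i.2) := fun k hk => by
    induction hk using Submodule.span_induction with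
    | mem x hx =>
      obtain ⟨z, hz, rfl⟩ := hx
      exact ⟨_, Submodule.subset_span ⟨z, hz, rfl⟩, h2 z (hU hz)⟩
    | zero => exact ⟨0, zero_mem _, by simp⟩
    | add x y _ _ hx hy =>
      obtain ⟨w, a, b⟩ := hx
      obtain ⟨w', c, d⟩ := hy
      exact ⟨w + w', add_mem a c, fun i => by simp [b, d, mul_add]⟩
    | smul c x _ hx =>
      obtain ⟨w, a, b⟩ := hx
      exact ⟨c • w, Submodule.smul_mem _ _ a, fun i => by simp [b, mul_left_comm]⟩
  obtain ⟨k, k1, k2⟩ := mem_closure_iff_seq_limit.1 h1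
  choose w w1 w2 using fun j => h3 (k j) (k1 j)
  refine ⟨w, _, tendsto_iff_norm_sub_tendsto_zero.1 k2, fun j => ⟨w1 j, fun n t => ?_⟩⟩
  have := lp.norm_apply_le_norm two_ne_zero (k j - E z) (n, t)
  rwa [lp.coeFn_sub, Pi.sub_apply, w2, h2 z hz, ← mul_sub, norm_mul, norm_pow,
    Complex.norm_natCast] at this

lemma dens (hU : U ⊆ G (m + 1)) (ho : IsOpen U) (hn : U.Nonempty) (hu : u ∈ Sp (G (m + 1))) :
    ∃ (w : ℕ → D) (e : ℕ → ℝ), Tendsto e atTop (𝓝 0) ∧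
      ∀ j, w j ∈ Sp U ∧ Bd (m + 1) (w j - u) (e j) := by
  induction hu using Submodule.span_induction with
  | mem x hx =>
    obtain ⟨z, hz, rfl⟩ := hx
    exact dens1 hU ho hn hz
  | zero => exact ⟨0, 0, tendsto_const_nhds, fun j => ⟨zero_mem _, fun n t => by simp⟩⟩
  | add x y _ _ hx hy =>
    obtain ⟨w, e, h1, h2⟩ := hx
    obtain ⟨w', e', h3, h4⟩ := hy
    exact ⟨w + w', fun j => e j + e' j, by simpa using h1.add h3, fun j => ⟨add_mem (h2 j).1 (h4 j).1,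
      by simpa only [Pi.add_apply, add_sub_add_comm] using (h2 j).2.add (h4 j).2⟩⟩
  | smul c x _ hx =>
    obtain ⟨w, e, h1, h2⟩ := hx
    exact ⟨c • w, fun j => ‖c‖ * e j, by simpa using h1.const_mul ‖c‖, fun j =>
      ⟨Submodule.smul_mem _ _ (h2 j).1, by
        simpa only [Pi.smul_apply, smul_sub] using (h2 j).2.smul c⟩⟩

lemma sp_exp (hu : u ∈ Sp U) (q : R) :
    HasSum (fun i : ℕ => (i.factorial : ℂ)⁻¹ * u (X 0 ^ i * q)) (u (X 1 * q)) := by
  induction hu using Submodule.span_induction with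
  | mem x hx =>
    obtain ⟨z, -, rfl⟩ := hx
    have := (NormedSpace.exp_series_hasSum_exp' (𝕂 := ℂ) z).mul_right (ev z q)
    simpa [Complex.exp_eq_exp_ℂ, mul_assoc] using this
  | zero => simp
  | add x y _ _ hx hy => simpa [mul_add] using hx.add hy
  | smul c x _ hx => simpa [mul_left_comm] using hx.mul_left c

end Pool.Agent.H.MP_4abaeb_an
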