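import Pool.Agent.H.MP_4abaeb_an.A

set_option autoImplicit false

namespace Pool.Agent.H.MP_4abaeb_an

open MvPolynomial Filter Topology Set

noncomputable def ff : R := 1 + X 0

lemma ev_ff (z : ℂ) : ev z ff = 1 + z := by simp [ff]

lemma ff_cont : Continuous fun z => ‖ev z ff‖ := by simp only [ev_ff]; fun_prop

lemma G_open (m : ℕ) : IsOpen (G m) :=
  IsOpen.and (isOpen_lt (by fun_prop) continuous_const) (isOpen_lt (by fun_prop) continuous_const)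

lemma G_anti (m : ℕ) : G (m + 1) ⊆ G m := fun _ h =>
  ⟨lt_of_le_of_lt (mul_le_mul_of_nonneg_right (by simp) (norm_nonneg _)) h.1, h.2⟩

lemma exs (m : ℕ) : ∃ s : ℝ, 0 < s ∧ s ≤ 1 / 2 ∧ m * s < 1 / 2 :=
  ⟨1 / (2 * (m + 1)), by positivity, by
    rw [div_le_div_iff₀ (by positivity) (by positivity)]; linarith [m.cast_nonneg (α := ℝ)], by
    rw [mul_one_div, div_lt_div_iff₀ (by positivity) (by positivity)]; linarith⟩

lemma exA (m : ℕ) : (G m ∩ {z | ‖ev z ff‖ < 1}).Nonempty := by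
  obtain ⟨s, h0, h1, h2⟩ := exs m
  refine ⟨-s, ⟨?_, ?_⟩, ?_⟩
  · rw [norm_neg, Complex.norm_real, Real.norm_of_nonneg h0.le]; linarith
  · simpa [Complex.norm_exp]
  · simp only [ev_ff, mem_ofPred_eq]
    norm_cast
    rw [Real.norm_of_nonneg] <;> nlinarith

lemma exB (m : ℕ) : (G m ∩ {z | 1 < ‖ev z ff‖}).Nonempty := by
  obtain ⟨s, h0, h1, h2⟩ := exs m
  have h3 : s ^ 2 ≤ 1 / 4 := by nlinarith
  have h4 : 0 < s ^ 2 / 4 := by positivity
  refine ⟨⟨-(s ^ 2 / 4), s⟩, ⟨?_, ?_⟩, ?_⟩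
  · have := Complex.norm_le_abs_re_add_abs_im ⟨-(s ^ 2 / 4), s⟩
    simp only [abs_neg, abs_of_pos h0, abs_of_pos h4] at this
    have : ‖(⟨-(s ^ 2 / 4), s⟩ : ℂ)‖ ≤ 2 * s := by nlinarith
    nlinarith [m.cast_nonneg (α := ℝ)]
  · rw [Complex.norm_exp, Real.exp_lt_one_iff]
    exact neg_lt_zero.2 h4
  · simp only [ev_ff, mem_ofPred_eq]
    rw [← one_lt_sq_iff₀ (norm_nonneg _), Complex.sq_norm, Complex.normSq_apply]
    simp
    nlinarith [mul_pos h4 h4]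

lemma step (r : ℕ) {x : D} (hx : x ∈ Sp (G (r + 1))) (p : R) {δ : ℝ} (hδ : 0 < δ) :
    ∃ y ∈ Sp (G (r + 2)), ∃ j, Bd (r + 1) (y - x) δ ∧
      Bd (r + 1) (act (ff ^ j) y - act p x) δ := by
  have hs : ∀ V, G (r + 2) ∩ V ⊆ G (r + 1) := fun V => inter_subset_left.trans (G_anti _)
  have hm : ∀ V, Sp (G (r + 2) ∩ V) ≤ Sp (G (r + 2)) := fun V =>
    Submodule.span_mono (image_mono inter_subset_left)
  have evt : ∀ {e : ℕ → ℝ}, Tendsto e atTop (𝓝 0) → ∀ᶠ j in atTop, e j < δ / 2 := fun h =>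
    h.eventually (gt_mem_nhds (half_pos hδ))
  obtain ⟨a, e1, a1, a2⟩ := dens (hs _) ((G_open _).inter
    (isOpen_lt ff_cont continuous_const)) (exA _) hx
  obtain ⟨b, e2, b1, b2⟩ := dens (hs _) ((G_open _).inter
    (isOpen_lt continuous_const ff_cont)) (exB _) (act_mem p hx)
  obtain ⟨i, i1, i2⟩ := ((evt a1).and (evt b1)).exists
  obtain ⟨c, e3, c1, c2⟩ := small (hs _) (a := fun _ => 1) (b := fun j => ff ^ j) (fun z hz =>
    ⟨by simp, by simpa using tendsto_pow_atTop_nhds_zero_of_norm_lt_one hz.2⟩) (a2 i).1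
  obtain ⟨d, e4, d1, d2⟩ := small (hs _) (a := fun j => ff ^ j) (b := fun _ => 1) (fun z hz => by
    have h : 1 < ‖ev z ff‖ := hz.2
    have h' : ev z ff ≠ 0 := norm_pos_iff.1 (by linarith)
    have := tendsto_pow_atTop_nhds_zero_of_norm_lt_one
      (x := (ev z ff)⁻¹) (by rw [norm_inv]; exact inv_lt_one_of_one_lt₀ h)
    exact ⟨by simp [h'], by simpa using this⟩) (b2 i).1
  obtain ⟨j, j1, j2⟩ := ((evt c1).and (evt d1)).exists
  have one : ∀ u, act 1 u = u := fun u => LinearMap.ext fun q => by simp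
  refine ⟨a i + d j, add_mem (hm _ (a2 i).1) (hm _ (d2 j).1), j, ?_, ?_⟩
  · rw [add_sub_right_comm]
    exact ((a2 i).2.add (d2 j).2.2).mono le_rfl (by linarith)
  · rw [map_add, ← (c2 j).2.1, (d2 j).2.1, one, one, add_sub_assoc]
    exact ((c2 j).2.2.add (b2 i).2).mono le_rfl (by linarith)

lemma sp_bd {m : ℕ} {u : D} (hu : u ∈ Sp (G m)) : ∃ C, Bd m u C := by
  induction hu using Submodule.span_induction with
  | mem x hx =>
    obtain ⟨z, hz, rfl⟩ := hx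
    exact ⟨1, ev_bd hz⟩
  | zero => exact ⟨0, fun n t => by simp⟩
  | add x y _ _ hx hy => exact ⟨_, hx.choose_spec.add hy.choose_spec⟩
  | smul c x _ hx => exact ⟨_, hx.choose_spec.smul c⟩

lemma build (p : ℕ → R) : ∃ (x : D) (j : ℕ → ℕ), x 1 ≠ 0 ∧ (∀ m, ∃ C, Bd m x C) ∧
    (∀ q, HasSum (fun i : ℕ => (i.factorial : ℂ)⁻¹ * x (X 0 ^ i * q)) (x (X 1 * q))) ∧
    ∀ r, Bd (r + 1) (act (ff ^ j r - p r) x) (5 * (1 / 2) ^ r) := by
  choose K K0 hK using act_bd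
  have sm : ∀ {a b : ℝ}, 0 < a → 0 < b → ∀ᶠ δ in 𝓝[>] (0 : ℝ), a * δ ≤ b := fun {a b} ha hb =>
    nhdsWithin_le_nhds ((show Tendsto (fun δ => a * δ) (𝓝 0) (𝓝 0) by
      simpa using (continuous_const_mul a).tendsto 0).eventually (ge_mem_nhds hb))
  obtain ⟨I, hI⟩ : ∃ I : ℕ → D × ℝ → Prop, I = fun r s => s.1 ∈ Sp (G (r + 1)) ∧ 0 < s.2 ∧
    K (p r) * s.2 ≤ (1 / 2) ^ r ∧ 4 * s.2 ≤ (1 / 2) ^ r := ⟨_, rfl⟩
  have st : ∀ r s, ∃ s' j, I r s → I (r + 1) s' ∧ 2 * s'.2 ≤ s.2 ∧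
      K (ff ^ j) * s'.2 ≤ (1 / 2) ^ r ∧ Bd (r + 1) (s'.1 - s.1) s.2 ∧
      Bd (r + 1) (act (ff ^ j) s'.1 - act (p r) s.1) s.2 := fun r s => by
    by_cases h : I r s
    · rw [hI] at h ⊢
      obtain ⟨y, h1, j, h2⟩ := step r h.1 (p r) h.2.1
      obtain ⟨δ, ⟨⟨⟨a, b⟩, c⟩, d⟩, e⟩ := (((((sm (K0 (p (r + 1))) (pow_pos one_half_pos (r + 1))).and
        (sm four_pos (pow_pos one_half_pos (r + 1)))).and (sm two_pos h.2.1)).and
        (sm (K0 (ff ^ j)) (pow_pos one_half_pos r))).and self_mem_nhdsWithin).exists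
      exact ⟨(y, δ), j, fun _ => ⟨⟨h1, e, a, b⟩, c, d, h2⟩⟩
    · exact ⟨s, 0, fun h' => absurd h' h⟩
  choose F j hF using st
  obtain ⟨z, hz, -⟩ := exA 1
  obtain ⟨δ, ⟨a, b⟩, c⟩ := (((sm (K0 (p 0)) one_pos).and (sm four_pos one_pos)).and
    self_mem_nhdsWithin).exists
  obtain ⟨s, s0, s1⟩ : ∃ s : ℕ → D × ℝ, s 0 = (leval z, δ) ∧ ∀ r, s (r + 1) = F r (s r) :=
    ⟨fun r => Nat.rec (leval z, δ) F r, rfl, fun _ => rfl⟩
  have h1 : ∀ r, I r (s r) := fun r => by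
    induction r with
    | zero => rw [s0, hI]; exact ⟨Submodule.subset_span ⟨z, hz, rfl⟩, c, by simpa, by simpa⟩
    | succ r ih => exact s1 r ▸ (hF r _ ih).1
  have h2 := fun r => (hF r _ (h1 r)).2
  simp only [← s1] at h2
  subst hI
  have h3 : ∀ r k, r ≤ k → Bd (r + 1) ((s k).1 - (s r).1) (2 * (s r).2 - 2 * (s k).2) :=
    fun r k hk => by
      induction k, hk using Nat.le_induction with
      | base => exact fun n t => by simp
      | succ k hk ih =>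
        rw [← sub_add_sub_cancel _ (s k).1]
        exact (((h2 k).2.2.1.mono (by omega) le_rfl).add ih).mono le_rfl (by linarith [(h2 k).1])
  have h4 : ∀ q, ∃ l, Tendsto (fun r => (s r).1 q) atTop (𝓝 l) := fun q =>
    cauchySeq_tendsto_of_complete (cauchySeq_of_le_tendsto_0' (fun r => K q * (1 / 2) ^ r)
      (fun r k hk => by
        have := hK q r _ _ ((h3 r k hk).mono le_rfl (show _ ≤ (1 / 2 : ℝ) ^ r by
          linarith [(h1 r).2.2.2, (h1 r).2.1, (h1 k).2.1])) 0 0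
        rw [dist_comm, dist_eq_norm]
        simpa using this)
      (by simpa using (tendsto_pow_atTop_nhds_zero_of_lt_one one_half_pos.le
        one_half_lt_one).const_mul (K q)))
  choose l hl using h4
  obtain ⟨x, hx⟩ : ∃ x : D, ∀ q, Tendsto (fun r => (s r).1 q) atTop (𝓝 (x q)) :=
    ⟨linearMapOfTendsto l (fun r => (s r).1) (tendsto_pi_nhds.2 hl), hl⟩
  have h5 : ∀ r, Bd (r + 1) (x - (s r).1) (2 * (s r).2) := fun r n t =>
    le_of_tendsto (((hx _).sub_const _).norm.const_mul _) ((eventually_ge_atTop r).mono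
      fun k hk => ((h3 r k hk) n t).trans (by linarith [(h1 k).2.1]))
  refine ⟨x, fun r => j r (s r), fun h => ?_, fun m => ?_, fun q => ?_, fun r => ?_⟩
  · have := h5 0 0 0
    simp [s0, h] at this
    linarith
  · obtain ⟨C, hC⟩ := sp_bd (h1 m).1
    exact ⟨_, by simpa using ((h5 m).add hC).mono m.le_succ le_rfl⟩
  · obtain ⟨C, hC⟩ := sp_bd (h1 0).1
    have a : ∀ r i, ‖(s r).1 (X 0 ^ i * q)‖ ≤ K q * (2 * (s 0).2 + C) := fun r i => by
      have := hK q 0 _ _ (((h3 0 r r.zero_le).mono le_rfl (show _ ≤ 2 * (s 0).2 by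
        linarith [(h1 r).2.1])).add hC) i 0
      simpa [mul_comm q] using this
    have b : Summable fun i : ℕ => (i.factorial : ℝ)⁻¹ * (K q * (2 * (s 0).2 + C)) := by
      simpa using (Real.summable_pow_div_factorial 1).mul_right _
    have c : ∀ {u : D} (i : ℕ), ‖u (X 0 ^ i * q)‖ ≤ K q * (2 * (s 0).2 + C) →
        ‖(i.factorial : ℂ)⁻¹ * u (X 0 ^ i * q)‖ ≤
        (i.factorial : ℝ)⁻¹ * (K q * (2 * (s 0).2 + C)) := fun i h => by
      rw [norm_mul, norm_inv, Complex.norm_natCast]; gcongr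
    have d := tendsto_tsum_of_dominated_convergence b
      (fun i => (hx (X 0 ^ i * q)).const_mul (i.factorial : ℂ)⁻¹)
      (.of_forall fun r i => c i (a r i))
    simp only [fun r => (sp_exp (h1 r).1 q).tsum_eq] at d
    rw [tendsto_nhds_unique (hx _) d]
    exact (Summable.of_norm_bounded b fun i => c i (le_of_tendsto' (hx _).norm fun r => a r i)).hasSum
  · have e : act (ff ^ j r (s r) - p r) x = act (ff ^ j r (s r)) (x - (s (r + 1)).1) +
        (act (ff ^ j r (s r)) (s (r + 1)).1 - act (p r) (s r).1) +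
        (-1 : ℂ) • act (p r) (x - (s r).1) := LinearMap.ext fun q => by simp [sub_mul]
    rw [e]
    refine (((hK _ _ _ _ ((h5 (r + 1)).mono (Nat.le_succ _) le_rfl)).add (h2 r).2.2.2).add
      ((hK _ _ _ _ (h5 r)).smul _)).mono le_rfl ?_
    rw [norm_neg, norm_one]
    linarith [(h2 r).2.1, (h1 r).2.2.1, (h1 r).2.2.2, (h1 r).2.1]

lemma emb (p : ℕ → R) : ∃ (Φ : R →ₗ[ℂ] BoundedContinuousFunction (ℕ × ℕ × ℕ) ℂ)
    (j : ℕ → ℕ), Φ 1 ≠ 0 ∧ (∀ q, ‖Φ (X 1 * q)‖ ≤ ‖Φ q‖) ∧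
    (∀ k : ℕ, ∃ C, ∀ m q, ‖Φ (X 0 ^ m * q)‖ ≤ C / (k + 1) ^ m * ‖Φ q‖) ∧
    (∀ q y, HasSum (fun i : ℕ => (i.factorial : ℂ)⁻¹ • Φ (X 0 ^ i * q)) y → y = Φ (X 1 * q)) ∧
    ∀ r, ‖Φ (ff ^ j r - p r)‖ ≤ 5 * (1 / 2) ^ r := by
  obtain ⟨x, j, h1, h2, h4, h3⟩ := build p
  choose K K0 hK using act_bd
  choose B hB using h2
  have B0 := fun k => (hB k).nonneg
  obtain ⟨c, c0, c1, c2, c3⟩ : ∃ c : ℕ → ℝ, (∀ k, 0 < c k) ∧ (∀ k, c k ≤ 1) ∧
      (∀ k, c k * B (k + 1) ≤ 1) ∧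
      ∀ k, ∀ r < k, c k * (K (ff ^ j r - p r) * B (k + 1)) ≤ (1 / 2) ^ r := by
    obtain ⟨S, hS⟩ : ∃ S : ℕ → ℝ, S = fun k => ∑ r ∈ Finset.range k, K (ff ^ j r - p r) * 2 ^ r :=
      ⟨_, rfl⟩
    have a : ∀ r, 0 ≤ K (ff ^ j r - p r) * 2 ^ r := fun r => mul_nonneg (K0 _).le (by positivity)
    have S0 : ∀ k, 0 ≤ S k := fun k => hS ▸ Finset.sum_nonneg fun r _ => a r
    have P : ∀ k, 0 < (1 + B (k + 1)) * (1 + S k) := fun k =>
      mul_pos (by linarith [B0 (k + 1)]) (by linarith [S0 k])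
    refine ⟨fun k => ((1 + B (k + 1)) * (1 + S k))⁻¹, fun k => inv_pos.2 (P k), fun k => ?_,
      fun k => ?_, fun k r hr => ?_⟩
    · exact inv_le_one_of_one_le₀ (by nlinarith [B0 (k + 1), S0 k])
    · rw [inv_mul_le_iff₀ (P k)]; nlinarith [B0 (k + 1), S0 k]
    · have : K (ff ^ j r - p r) * 2 ^ r ≤ S k :=
        hS ▸ Finset.single_le_sum (fun r _ => a r) (Finset.mem_range.2 hr)
      rw [inv_mul_le_iff₀ (P k), one_div, inv_pow, ← div_eq_mul_inv, le_div_iff₀ (by positivity)]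
      nlinarith [B0 (k + 1), S0 k]
  have nb : ∀ q (i : ℕ × ℕ × ℕ), ‖(c i.1 : ℂ) * ((i.1 + 1 : ℕ) ^ i.2.1 *
      x (q * (X 0 ^ i.2.1 * X 1 ^ i.2.2)))‖ = c i.1 * ((i.1 + 1 : ℕ) ^ i.2.1 *
      ‖x (q * (X 0 ^ i.2.1 * X 1 ^ i.2.2))‖) := fun q i => by
    rw [norm_mul, norm_mul, norm_pow, Complex.norm_natCast, Complex.norm_of_nonneg (c0 _).le]
  obtain ⟨Φ, hΦ'⟩ : ∃ Φ : R →ₗ[ℂ] BoundedContinuousFunction (ℕ × ℕ × ℕ) ℂ, ∀ q i, Φ q i =
      c i.1 * ((i.1 + 1 : ℕ) ^ i.2.1 * x (q * (X 0 ^ i.2.1 * X 1 ^ i.2.2))) :=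
    ⟨{ toFun := fun q => .ofNormedAddCommGroupDiscrete (fun i => (c i.1 : ℂ) * ((i.1 + 1 : ℕ) ^ i.2.1 *
          x (q * (X 0 ^ i.2.1 * X 1 ^ i.2.2)))) (K q) fun i => by
          rw [nb]
          refine (mul_le_mul_of_nonneg_left (hK q _ _ _ (hB _) _ _) (c0 _).le).trans ?_
          rw [mul_left_comm]
          exact mul_le_of_le_one_right (K0 q).le (c2 _)
       map_add' := fun a b => by ext i; simp [add_mul, mul_add]
       map_smul' := fun a b => by ext i; simp [mul_left_comm] }, fun _ _ => rfl⟩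
  have hΦ := fun q i => (congrArg norm (hΦ' q i)).trans (nb q i)
  have le : ∀ q k n t, c k * ((k + 1 : ℕ) ^ n * ‖x (q * (X 0 ^ n * X 1 ^ t))‖) ≤ ‖Φ q‖ :=
    fun q k n t => (hΦ q (k, n, t)).symm.trans_le ((Φ q).norm_coe_le_norm _)
  refine ⟨Φ, j, fun h => h1 ?_, fun q => (BoundedContinuousFunction.norm_le (norm_nonneg _)).2
    fun ⟨k, n, t⟩ => ?_, fun k => ⟨(c k)⁻¹, fun m q => (BoundedContinuousFunction.norm_le
      (by have := c0 k; positivity)).2 fun ⟨i, n, t⟩ => ?_⟩, fun q y h => ?_, fun r =>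
    (BoundedContinuousFunction.norm_le (by positivity)).2 fun ⟨k, n, t⟩ => ?_⟩
  · have := le 1 0 0 0
    simp only [h, norm_zero, pow_zero, mul_one, one_mul] at this
    exact norm_le_zero_iff.1 (le_of_mul_le_mul_left (by simpa using this) (c0 0))
  · rw [hΦ]
    convert le q k n (t + 1) using 5
    ring
  · rw [hΦ, show X 0 ^ m * q * (X 0 ^ n * X 1 ^ t) = q * (X 0 ^ (n + m) * X 1 ^ t) by ring,
      div_mul_eq_mul_div, le_div_iff₀ (by positivity), le_inv_mul_iff₀ (c0 k)]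
    have := c0 k
    have := c0 i
    have a1 := le q k (n + m) t
    have a2 := le q i (n + m) t
    dsimp only
    obtain ⟨y, y0, hy⟩ : ∃ y, 0 ≤ y ∧ ‖x (q * (X 0 ^ (n + m) * X 1 ^ t))‖ = y :=
      ⟨_, norm_nonneg _, rfl⟩
    rw [hy] at a1 a2 ⊢
    push_cast at a1 a2 ⊢
    rcases le_total i k with h | h
    · have : (i : ℝ) ≤ k := by exact_mod_cast h
      calc _ ≤ c k * (1 * ((k + 1) ^ n * y) * (k + 1) ^ m) := by gcongr; exact c1 i
        _ ≤ _ := by rw [pow_add] at a1; linarith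
    · have : (k : ℝ) ≤ i := by exact_mod_cast h
      calc _ ≤ 1 * (c i * ((i + 1) ^ n * y) * (i + 1) ^ m) := by gcongr; exact c1 k
        _ ≤ _ := by rw [pow_add] at a2; linarith
  · ext i
    refine (h.mapL (BoundedContinuousFunction.evalCLM ℂ i)).unique ?_
    have := ((h4 (q * (X 0 ^ i.2.1 * X 1 ^ i.2.2))).mul_left
      (((i.1 + 1 : ℕ) : ℂ) ^ i.2.1)).mul_left (c i.1 : ℂ)
    rw [hΦ', mul_assoc (X 1)]
    refine (congrArg (HasSum · _) (funext fun l => ?_)).mp this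
    rw [map_smul, BoundedContinuousFunction.evalCLM_apply, hΦ', mul_assoc (X 0 ^ l), smul_eq_mul]
    ring
  · rw [hΦ]
    rcases lt_or_ge r k with h | h
    · exact ((mul_le_mul_of_nonneg_left (hK _ _ _ _ (hB _) n t) (c0 _).le).trans (c3 k r h)).trans
        (le_mul_of_one_le_left (by positivity) (by norm_num))
    · exact (mul_le_of_le_one_left (by positivity) (c1 k)).trans
        ((h3 r).mono (Nat.succ_le_succ h) le_rfl n t)

end Pool.Agent.H.MP_4abaeb_an
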